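import Pool.Agent.Q184.DF.Ex

/-!
# Positive definite hermitian forms over integral group rings of torsion-free groups

Definitions (`Pool.Agent.Q184.DF`): `bar` is the involution `g ↦ g⁻¹` of `ℤΓ`, `adj A` the conjugate
transpose of a matrix `A` over `ℤΓ`, and `herm A x y = ∑ x k * A k l * bar (y l)` the sesquilinear
form `x A y^*` on the rows. The norm of the row `x` is the coefficient of `1` in `herm A x x`.
`Strict A` says that for some natural number `C` the sum of the squares of all coefficients of `x` is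
at most `C` times the norm of `x`, for all rows `x`.
-/

set_option autoImplicit false

namespace Pool.Agent.Results.MP_98022b_gt.DefiniteForms

open Matrix Pool.Agent.Q184.DF

/-- Let `Γ` be a torsion-free group.

* A positive definite unimodular hermitian form over `ℤΓ` whose module `(ℤΓ)^n` is generated by
  vectors of norm at most `2` is isometric to a form extended from `ℤ`.
* The same holds for all hermitian forms which are strictly positive, unimodular or not.
* The bound `2` is best possible: over `ℤ[t, t⁻¹]` there is a positive definite unimodular hermitian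
  form on the free module of rank two, with a basis of two vectors of norm `3`, which is not
  isometric to a form extended from `ℤ`. -/
theorem result :
    (∀ (Γ : Type) [Group Γ], (∀ g : Γ, ∀ k : ℕ, 0 < k → g ^ k = 1 → g = 1) →
      ∀ (n : ℕ) (A : Matrix (Fin n) (Fin n) (MonoidAlgebra ℤ Γ)), adj A = A → IsUnit A →
      (∀ x : Fin n → MonoidAlgebra ℤ Γ, x ≠ 0 → 0 < (herm A x x).coeff 1) →
      Submodule.span (MonoidAlgebra ℤ Γ)
        {x : Fin n → MonoidAlgebra ℤ Γ | (herm A x x).coeff 1 ≤ 2} = ⊤ →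
      ∃ (U : (Matrix (Fin n) (Fin n) (MonoidAlgebra ℤ Γ))ˣ) (B : Matrix (Fin n) (Fin n) ℤ),
        U.val * A * adj U.val = B.map (MonoidAlgebra.single 1)) ∧
    (∀ (Γ : Type) [Group Γ], (∀ g : Γ, ∀ k : ℕ, 0 < k → g ^ k = 1 → g = 1) →
      ∀ (n : ℕ) (A : Matrix (Fin n) (Fin n) (MonoidAlgebra ℤ Γ)), adj A = A → Strict A →
      Submodule.span (MonoidAlgebra ℤ Γ)
        {x : Fin n → MonoidAlgebra ℤ Γ | (herm A x x).coeff 1 ≤ 2} = ⊤ →
      ∃ (U : (Matrix (Fin n) (Fin n) (MonoidAlgebra ℤ Γ))ˣ) (B : Matrix (Fin n) (Fin n) ℤ),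
        U.val * A * adj U.val = B.map (MonoidAlgebra.single 1)) ∧
    (∃ A : Matrix (Fin 2) (Fin 2) (MonoidAlgebra ℤ (Multiplicative ℤ)), adj A = A ∧ IsUnit A ∧
      (∀ x : Fin 2 → MonoidAlgebra ℤ (Multiplicative ℤ), x ≠ 0 → 0 < (herm A x x).coeff 1) ∧
      (∀ i, (A i i).coeff 1 = 3) ∧
      ¬ ∃ (U : (Matrix (Fin 2) (Fin 2) (MonoidAlgebra ℤ (Multiplicative ℤ)))ˣ)
        (B : Matrix (Fin 2) (Fin 2) ℤ),
        U.val * A * adj U.val = B.map (MonoidAlgebra.single 1)) :=
  ⟨fun _ _ htf _ _ hA hU hpos hgen => extended_of_unit htf hA hU hpos hgen,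
    fun _ _ htf _ A hA hS hgen => extended_of_dat htf (dat_of_strict A hA hS) hgen,
    Ex.A, Ex.adjA, Ex.unitA, Ex.posA, Ex.diagA, Ex.not_extended⟩

end Pool.Agent.Results.MP_98022b_gt.DefiniteForms
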