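import Pool.Agent.Q30.FJ.T2

/-!
# Graph-wreath products are Farrell–Jones groups

`C` is any class of groups with the closure properties `ClosedE C`, all of which are known for the
class of the groups that satisfy the K- and L-theoretic Farrell–Jones conjecture with coefficients
and finite wreath products. For a torsion-free group in that class the assembly map of the problem
is an equivalence.

Outline of the proof. Let `Γ` be the graph product of copies of `A` over the graph `Λ`. An element
`g` of `Γ ⋊ Q` and a finite subset `E` of `Γ` involve a finite set `T` of vertices, and `g` induces
a partial isomorphism of the finite graph on `T`, which is the restriction of an automorphism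
of finite order of a finite graph `Λ'` that contains it (Hrushovski). The graph product over the
full subgraph on `T` is a retract of the graph product `Γ'` over `Λ'`. So the conjugation by `g` on
`E` is given by an automorphism of `Γ'` a power of which is inner; `Γ'` is in `C` by induction, and
the extension criterion `Q30.FJ.crit_loc` applies.
-/

set_option autoImplicit false

namespace Pool.Agent.Results.MP_98022b_gt.GraphWreathProducts

open Pool.Agent.Y110.FJ (ClosedE)
open Q30.FJ (IsGraphWreath)

/-- Let `C` be a class of groups with the closure properties `ClosedE C`. Let a group `Q` act on a
simplicial graph `Λ` with vertex set `V`, not assumed to be finite, and let `A` be a group. Then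
the graph-wreath product exists (the universal group generated by `Q` and a copy of `A` for each
vertex such that the copies at adjacent vertices commute and `Q` permutes the copies), and
if `A` and `Q` are in `C`, then it is in `C`. -/
theorem result (C : ∀ (G : Type) [Group G], Prop) (hC : ClosedE C)
    (V Q A : Type) [Group Q] [Group A] [MulAction Q V] (Λ : SimpleGraph V)
    (hΛ : ∀ (q : Q) (v w : V), Λ.Adj v w → Λ.Adj (q • v) (q • w))
    (hA : C A) (hQ : C Q) :
    (∃ (G : Type) (_ : Group G) (a : V → A →* G) (t : Q →* G), IsGraphWreath Λ a t) ∧
    ∀ (G : Type) [Group G] (a : V → A →* G) (t : Q →* G), IsGraphWreath Λ a t → C G :=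
  ⟨Q30.FJ.gw_exists V Q A Λ hΛ,
    fun G _ a t hG => Q30.FJ.gw_univ hC V Q A Λ hΛ G a t hG hA hQ⟩

end Pool.Agent.Results.MP_98022b_gt.GraphWreathProducts
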