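import Pool.Agent.Q30.FJ.Emb3

/-!
# Countable Farrell–Jones groups embed in two-generated Farrell–Jones groups

`C` is any class of groups with the closure properties `ClosedE C`, all of which are known for the
class of the groups that satisfy the K- and L-theoretic Farrell–Jones conjecture with coefficients
and finite wreath products. For a torsion-free group in that class the assembly map of the problem
is an equivalence.

`Wr X H` is the unrestricted wreath product of `H` with the group of all permutations of the set `X`:
its elements are the `H`-monomial permutations of `X`, given by labels `s : X → H` and a permutation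
`p`. The support `wsupp a` is the set of the points which are moved by `p` or have a label `≠ 1`.

Outline of the proof. (1) is an application of the extension criterion: conjugations on finite sets
of elements with finite support are realized in the wreath product with a finite symmetric group.
(2) A countable group `G` embeds as the commutators `[c_g, t]` in the group `EC G` of the functions
`ℤ → G` that are `1` near `-∞` and constant near `+∞`, extended by the shift `t`, which is in the
class by (1): modulo the functions with finite support it is a subgroup of `G × ℤ`. Let `f` be the
function with values in a group `H` of the class with `f (2 ^ i) = h_i` and `1` otherwise. Modulo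
the functions with finite support the translates of `f` commute. So the subgroup of
`(H ≀≀ ℤ) × (ℤ ≀ ℤ)` generated by `(f, x)` and `(t, y)` is in the class by (1) and by the theorem on
graph-wreath products, and it contains the commutator subgroup of the group generated by the `h_i`.
-/

set_option autoImplicit false

namespace Pool.Agent.Results.MP_98022b_gt.TwoGenerated

open Pool.Agent.Y110.FJ (ClosedE)
open Pool.Agent.Y462.SS (Wr)
open Q30.FJ (wsupp TorsionFree)

/-- Let `C` be a class of groups with the closure properties `ClosedE C`.

1. Let `ρ` be a homomorphism from `G` to the group of the `H`-monomial permutations of a set `X`,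
`H` in `C`, and let `N` be a normal subgroup of `G` on which `ρ` is faithful and whose elements
act with finite support. If `G ⧸ N` is in `C`, then so is `G`.

2. For every sequence `G 0, G 1, ...` of countable groups in `C` there is a group `Γ` in `C` which is
generated by two elements and contains copies of all groups `G i`. If all groups `G i` are
torsion-free, then so is `Γ`. -/
theorem result (C : ∀ (G : Type) [Group G], Prop) (hC : ClosedE C) :
    (∀ (X H : Type) [Group H], C H → ∀ (G : Type) [Group G] (N : Subgroup G) [N.Normal],
      C (G ⧸ N) → ∀ ρ : G →* Wr X H, (∀ g ∈ N, ρ g = 1 → g = 1) →
      (∀ g ∈ N, (wsupp (ρ g)).Finite) → C G) ∧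
    (∀ (G : ℕ → Type) [∀ i, Group (G i)] [∀ i, Countable (G i)], (∀ i, C (G i)) →
      ∃ (Γ : Type) (_ : Group Γ) (a b : Γ), C Γ ∧ Subgroup.closure {a, b} = ⊤ ∧
        (∀ i, ∃ ι : G i →* Γ, Function.Injective ι) ∧
        ((∀ i, TorsionFree (G i)) → TorsionFree Γ)) :=
  ⟨fun X H _ hH G _ N _ hQ ρ hρ hfin => Q30.FJ.mono_kernel hC X H hH G N hQ ρ hρ hfin,
    fun G _ _ hG => Q30.FJ.embed_seq hC hG⟩

end Pool.Agent.Results.MP_98022b_gt.TwoGenerated
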